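import Pool.Agent.Q72.EG.Stm2

set_option autoImplicit false

/-! Project EG, job ENDS: ends on which a given monomial has a pole. -/

namespace Pool.Agent.Q151.EG

open Pool.Agent.Q72.EG

/-- a valuation ring over a field at which a given transcendental element has a pole -/
theorem exists_val {E : Type} [Field E] [Algebra ℂ E] (K0 : IntermediateField ℂ E) (f : E)
    (hf : Transcendental K0 f) : ∃ O : ValuationSubring E, (∀ k ∈ K0, k ∈ O) ∧ f ∉ O := by
  by_contra hcon
  push Not at hcon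
  apply hf
  obtain ⟨R, hR⟩ : ∃ R : Subring E, R = Subring.closure (K0 : Set E) := ⟨_, rfl⟩
  have h1 : f ∈ (⨅ V : {V : ValuationSubring E // (K0 : Set E) ⊆ V.toSubring},
      V.1.toSubring) := by
    rw [Subring.mem_iInf]
    intro V
    exact hcon V.1 (fun k hk => V.2 hk)
  rw [iInf_valuationSubring_superset, ← hR] at h1
  have h2 : IsIntegral R f := h1
  have hle : ∀ r : R, (r : E) ∈ K0 := by
    intro r
    have h3 : R ≤ K0.toSubfield.toSubring := by
      rw [hR]
      exact Subring.closure_le.mpr (fun k hk => hk)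
    exact h3 r.2
  obtain ⟨p, hp, hp0⟩ := h2
  let φ : R →+* K0 := R.subtype.codRestrict K0 hle
  refine ⟨p.map φ, (hp.map φ).ne_zero, ?_⟩
  rw [Polynomial.aeval_def, Polynomial.eval₂_map]
  exact hp0

/-- elements of the field generated by `f` over `K0` are quotients of polynomials in `f` -/
theorem mem_ratio {E : Type} [Field E] [Algebra ℂ E] (X : Set E) (f c : E)
    (hc : c ∈ IntermediateField.adjoin ℂ (insert f X)) :
    ∃ p q : Polynomial (IntermediateField.adjoin ℂ X), c = Polynomial.aeval f p / Polynomial.aeval f q := by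
  have h1 : ∀ r ∈ Algebra.adjoin ℂ (insert f X),
      ∃ p : Polynomial (IntermediateField.adjoin ℂ X), r = Polynomial.aeval f p := by
    intro r hr
    induction hr using Algebra.adjoin_induction with
    | mem y hy =>
      rcases hy with rfl | hy
      · exact ⟨Polynomial.X, by simp⟩
      · exact ⟨Polynomial.C ⟨y, IntermediateField.subset_adjoin ℂ X hy⟩, by
          rw [Polynomial.aeval_C]; rfl⟩
    | algebraMap a =>
      exact ⟨Polynomial.C (algebraMap ℂ _ a), by rw [Polynomial.aeval_C]; rfl⟩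
    | add a b _ _ ha hb =>
      obtain ⟨p, rfl⟩ := ha
      obtain ⟨q, rfl⟩ := hb
      exact ⟨p + q, by rw [map_add]⟩
    | mul a b _ _ ha hb =>
      obtain ⟨p, rfl⟩ := ha
      obtain ⟨q, rfl⟩ := hb
      exact ⟨p * q, by rw [map_mul]⟩
  obtain ⟨r, hr, s, hs, rfl⟩ := IntermediateField.mem_adjoin_iff_div.mp hc
  obtain ⟨p, rfl⟩ := h1 r hr
  obtain ⟨q, rfl⟩ := h1 s hs
  exact ⟨p, q, rfl⟩

/-- two terms of a vanishing sum have the same valuation -/
theorem two_terms {E : Type} [Field E] (O : ValuationSubring E) (s : Finset ℕ) (a : ℕ → E)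
    (hs : s.Nonempty) (ha : ∀ i ∈ s, a i ≠ 0) (h0 : ∑ i ∈ s, a i = 0) :
    ∃ i ∈ s, ∃ j ∈ s, i < j ∧ O.valuation (a i) = O.valuation (a j) := by
  obtain ⟨j, hj, hmax⟩ := Finset.exists_max_image s (fun i => O.valuation (a i)) hs
  by_contra hcon
  push Not at hcon
  have h1 : ∀ i ∈ s \ {j}, O.valuation (a i) < O.valuation (a j) := by
    intro i hi
    rw [Finset.mem_sdiff, Finset.mem_singleton] at hi
    refine lt_of_le_of_ne (hmax i hi.1) (fun heq => ?_)
    rcases lt_or_gt_of_ne hi.2 with h | h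
    · exact hcon i hi.1 j hj h heq
    · exact hcon j hj i hi.1 h heq.symm
  have h2 := Valuation.map_sum_eq_of_lt O.valuation hj h1
  rw [h0, map_zero] at h2
  exact ha j hj ((Valuation.zero_iff _).mp h2.symm)

theorem ends : S_ends := by
  intro n E _ _ P x y hP hx hy htr m hf
  obtain ⟨K0, hK0⟩ : ∃ K0, K0 = IntermediateField.adjoin ℂ (Set.range x) := ⟨_, rfl⟩
  obtain ⟨f, hfdef⟩ : ∃ f, f = ∏ l, y l ^ m l := ⟨_, rfl⟩
  rw [← hfdef] at hf
  have hf0 : f ≠ 0 := by
    rw [hfdef]
    exact Finset.prod_ne_zero_iff.mpr fun l _ => zpow_ne_zero _ (hy l)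
  obtain ⟨O, hO, hfO⟩ := exists_val _ f hf
  have hvf : 1 < O.valuation f := by
    by_contra h
    exact hfO ((O.valuation_le_one_iff f).mp (not_lt.mp h))
  have hvf0 : O.valuation f ≠ 0 := (Valuation.ne_zero_iff _).mpr hf0
  have htriv : ∀ k ∈ IntermediateField.adjoin ℂ (Set.range x), k ≠ 0 → O.valuation k = 1 := by
    intro k hk hk0
    have h1 := (O.valuation_le_one_iff k).mpr (hO k hk)
    have h2 := (O.valuation_le_one_iff k⁻¹).mpr (hO _ (inv_mem hk))
    rw [map_inv₀] at h2
    have hk' : O.valuation k ≠ 0 := (Valuation.ne_zero_iff _).mpr hk0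
    exact le_antisymm h1 ((inv_le_one₀ (zero_lt_iff.mpr hk')).mp h2)
  have : O.valuation.IsTrivialOn (IntermediateField.adjoin ℂ (Set.range x)) := by
    constructor
    intro a ha
    exact htriv a a.2 (by simpa using ha)
  -- valuations of the elements of `ℂ(x, f)`
  have hc : ∀ c ∈ IntermediateField.adjoin ℂ (insert f (Set.range x)), c ≠ 0 →
      ∃ q : ℤ, O.valuation c = O.valuation f ^ q := by
    intro c hc hc0
    obtain ⟨p, q, rfl⟩ := mem_ratio _ f c hc
    have hp : p ≠ 0 := by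
      rintro rfl
      exact hc0 (by simp)
    have hq : q ≠ 0 := by
      rintro rfl
      exact hc0 (by simp)
    refine ⟨p.natDegree - q.natDegree, ?_⟩
    rw [map_div₀,
      Polynomial.valuation_aeval_eq_valuation_X_pow_natDegree_of_one_lt_valuation_X f hvf hp,
      Polynomial.valuation_aeval_eq_valuation_X_pow_natDegree_of_one_lt_valuation_X f hvf hq,
      zpow_sub₀ hvf0, zpow_natCast, zpow_natCast]
  -- valuations of algebraic elements
  have halg : ∀ g : E, g ≠ 0 → ∃ (N : ℕ) (q : ℤ), 0 < N ∧ O.valuation g ^ N = O.valuation f ^ q := by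
    intro g hg
    obtain ⟨p, hp, hp0⟩ := htr f g hf
    have hsum : ∑ i ∈ p.support, (p.coeff i : E) * g ^ i = 0 := by
      rw [Polynomial.aeval_def, Polynomial.eval₂_eq_sum, Polynomial.sum] at hp0
      exact hp0
    obtain ⟨i, hi, j, hj, hij, heq⟩ := two_terms O p.support (fun i => (p.coeff i : E) * g ^ i)
      (Polynomial.support_nonempty.mpr hp) (fun i hi => mul_ne_zero
        (by simpa using Polynomial.mem_support_iff.mp hi) (pow_ne_zero _ hg)) hsum
    obtain ⟨qi, hqi⟩ := hc _ (p.coeff i).2 (by simpa using Polynomial.mem_support_iff.mp hi)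
    obtain ⟨qj, hqj⟩ := hc _ (p.coeff j).2 (by simpa using Polynomial.mem_support_iff.mp hj)
    have hg' : O.valuation g ≠ 0 := (Valuation.ne_zero_iff _).mpr hg
    refine ⟨j - i, qi - qj, by omega, ?_⟩
    simp only [map_mul, map_pow, hqi, hqj] at heq
    have e1 : O.valuation g ^ j = O.valuation g ^ (j - i) * O.valuation g ^ i := by
      rw [← pow_add]
      congr 1
      omega
    rw [e1, ← mul_assoc] at heq
    have h3 := mul_right_cancel₀ (pow_ne_zero _ hg') heq
    rw [zpow_sub₀ hvf0, h3, mul_comm, mul_div_assoc, div_self (zpow_ne_zero _ hvf0), mul_one]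
  choose N q hN hq using fun l => halg (y l) (hy l)
  obtain ⟨NN, hNN⟩ : ∃ NN : ℕ, NN = ∏ l, N l := ⟨_, rfl⟩
  have hNN0 : 0 < NN := by
    rw [hNN]
    exact Finset.prod_pos fun l _ => hN l
  have hdvd : ∀ l, ∃ k : ℕ, NN = N l * k := fun l => by
    rw [hNN]
    exact Finset.dvd_prod_of_mem N (Finset.mem_univ l)
  choose k hk using hdvd
  obtain ⟨Q, hQ⟩ : ∃ Q : Fin n → ℤ, Q = fun l => q l * k l := ⟨_, rfl⟩
  have hyQ : ∀ l, O.valuation (y l) ^ NN = O.valuation f ^ Q l := by
    intro l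
    rw [hk l, pow_mul, hq l, hQ]
    simp only
    rw [zpow_mul, zpow_natCast]
  have hsumQ : ∑ l, m l * Q l = (NN : ℤ) := by
    have h1 : O.valuation f ^ (NN : ℤ) = O.valuation f ^ (∑ l, m l * Q l) := by
      have h2 : O.valuation f ^ (NN : ℤ) = ∏ l, (O.valuation (y l) ^ NN) ^ m l := by
        nth_rewrite 1 [hfdef]
        rw [map_prod, ← Finset.prod_zpow]
        apply Finset.prod_congr rfl
        intro l _
        rw [map_zpow₀, ← zpow_mul, ← zpow_natCast (O.valuation (y l)) NN, ← zpow_mul, mul_comm]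
      rw [h2]
      have h3 : ∀ l, (O.valuation (y l) ^ NN) ^ m l = O.valuation f ^ (m l * Q l) := by
        intro l
        rw [hyQ l, ← zpow_mul, mul_comm]
      rw [Finset.prod_congr rfl fun l _ => h3 l]
      have h4 : ∀ s : Finset (Fin n), ∏ l ∈ s, O.valuation f ^ (m l * Q l) =
          O.valuation f ^ (∑ l ∈ s, m l * Q l) := by
        intro s
        classical
        induction s using Finset.induction_on with
        | empty => simp
        | insert a s ha ih => rw [Finset.prod_insert ha, Finset.sum_insert ha, zpow_add₀ hvf0, ih]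
      exact h4 Finset.univ
    exact (zpow_right_injective₀ (zero_lt_iff.mpr hvf0) hvf.ne' h1).symm
  obtain ⟨i0, hi0⟩ : ∃ i0, Q i0 ≠ 0 := by
    by_contra hcon
    push Not at hcon
    rw [Finset.sum_eq_zero (fun l _ => by rw [hcon l, mul_zero])] at hsumQ
    omega
  obtain ⟨ε, hε, hεQ⟩ : ∃ ε : ℤ, (ε = 1 ∨ ε = -1) ∧ ε * Q i0 = -|Q i0| := by
    rcases lt_or_gt_of_ne hi0 with h | h
    · exact ⟨1, Or.inl rfl, by rw [abs_of_neg h]; ring⟩
    · exact ⟨-1, Or.inr rfl, by rw [abs_of_pos h]; ring⟩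
  obtain ⟨a, ha⟩ : ∃ a : ℕ, a = (Q i0).natAbs := ⟨_, rfl⟩
  have ha0 : 0 < a := by
    rw [ha]
    exact Int.natAbs_pos.mpr hi0
  have haQ : |Q i0| = (a : ℤ) := by rw [ha, Int.abs_eq_natAbs]
  obtain ⟨Y, hY⟩ : ∃ Y, Y = y i0 ^ ε := ⟨_, rfl⟩
  have hY0 : Y ≠ 0 := by
    rw [hY]
    exact zpow_ne_zero _ (hy i0)
  have hvY0 : O.valuation Y ≠ 0 := (Valuation.ne_zero_iff _).mpr hY0
  have hvYN : O.valuation Y ^ NN = O.valuation f ^ (-(a : ℤ)) := by
    rw [hY, map_zpow₀, ← zpow_natCast, ← zpow_mul, mul_comm ε, zpow_mul, zpow_natCast, hyQ,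
      ← zpow_mul, mul_comm, hεQ, haQ]
  have hvY1 : O.valuation Y < 1 := by
    by_contra h
    have h1 : 1 ≤ O.valuation Y ^ NN := one_le_pow₀ (not_lt.mp h)
    rw [hvYN] at h1
    have h2 : O.valuation f ^ (-(a : ℤ)) < 1 := by
      apply zpow_lt_one_of_neg₀ hvf
      omega
    exact absurd h1 (not_le.mpr h2)
  have hYtr : Transcendental (IntermediateField.adjoin ℂ (Set.range x)) Y :=
    Valuation.transcendental_of_ne_one (v := O.valuation) _ Y hY0 hvY1.ne
  have hrange : Set.range (oe Y x) = insert Y (Set.range x) := by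
    ext z
    constructor
    · rintro ⟨o, rfl⟩
      rcases o with _ | l
      · exact Set.mem_insert _ _
      · exact Set.mem_insert_of_mem _ ⟨l, rfl⟩
    · rintro (rfl | ⟨l, rfl⟩)
      · exact ⟨none, rfl⟩
      · exact ⟨some l, rfl⟩
  have hG : ∃ G : Gen n E, G.P = P ∧ G.x = x ∧ G.y = y ∧
      ∀ l, G.a l = ((-(NN : ℤ) * Q l : ℤ) : ℝ) / ((NN * a : ℕ) : ℝ) := by
    have hYG : O.valuation (y i0 ^ ε) < 1 := by rw [← hY]; exact hvY1
    refine ⟨Gen.mk P hP x y hx hy O ?_ i0 ε hε hYG (NN * a) (Nat.mul_pos hNN0 ha0)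
      (fun l => -(NN : ℤ) * Q l) ?_ ?_, rfl, rfl, rfl, fun l => rfl⟩
    · intro g hg
      apply htriv
      · have h1 : ∀ g : MvPolynomial (Fin n) ℂ,
            MvPolynomial.aeval x g ∈ IntermediateField.adjoin ℂ (Set.range x) := by
          intro g
          induction g using MvPolynomial.induction_on with
          | C c => rw [MvPolynomial.aeval_C]; exact algebraMap_mem _ _
          | add p q hp hq => rw [map_add]; exact add_mem hp hq
          | mul_X p i hp =>
            rw [map_mul, MvPolynomial.aeval_X]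
            exact mul_mem hp (IntermediateField.subset_adjoin ℂ _ ⟨i, rfl⟩)
        exact h1 g
      · exact fun h => hg ((hx g).mp h)
    · intro l
      rw [← hY]
      rw [pow_mul, hyQ l]
      have e1 : O.valuation Y ^ (-(NN : ℤ) * Q l) = (O.valuation f ^ (a : ℤ)) ^ Q l := by
        rw [zpow_mul, zpow_neg, zpow_natCast, hvYN, zpow_neg, inv_inv]
      rw [e1, ← zpow_natCast, ← zpow_mul, ← zpow_mul, mul_comm]
    · intro l
      rw [← hY, hrange]
      exact htr Y (y l) hYtr
  obtain ⟨G, h1, h2, h3, h4⟩ := hG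
  refine ⟨G, h1, h2, h3, ?_⟩
  have hNNR : (0 : ℝ) < NN := by exact_mod_cast hNN0
  have haR : (0 : ℝ) < a := by exact_mod_cast ha0
  have e1 : ∑ l, (m l : ℝ) * G.a l = -((NN : ℝ) / a) := by
    have e2 : ∀ l, (m l : ℝ) * G.a l = -(1 / (a : ℝ)) * ((m l * Q l : ℤ) : ℝ) := by
      intro l
      rw [h4 l]
      push_cast
      field_simp
    rw [Finset.sum_congr rfl fun l _ => e2 l, ← Finset.mul_sum]
    have e3 : ∑ l, ((m l * Q l : ℤ) : ℝ) = (NN : ℝ) := by exact_mod_cast congrArg (Int.cast : ℤ → ℝ) hsumQ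
    rw [e3]
    ring
  rw [e1]
  have : 0 < (NN : ℝ) / a := by positivity
  linarith

end Pool.Agent.Q151.EG
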