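import Pool.Agent.Q72.EG.Stm2
import Pool.Agent.W565.EC.Clos

set_option autoImplicit false

/-! Project EG, job NR: non-real factors of the leading form. -/

namespace Pool.Agent.Q151.EG

open MvPolynomial Pool.Agent.W996.EC Pool.Agent.Q72.EG

noncomputable section

variable {n : ℕ}

/-- translation by `s a` -/
def Ts (a : Fin n → ℝ) : MvPolynomial (Fin n) ℂ →ₐ[ℂ] Polynomial (MvPolynomial (Fin n) ℂ) :=
  aeval (fun l => Polynomial.C (X l) + Polynomial.C (C (a l : ℂ)) * Polynomial.X)

theorem Ts_eval (a : Fin n → ℝ) (p : MvPolynomial (Fin n) ℂ) (x : Fin n → ℂ) (s : ℂ) :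
    ((Ts a p).map (eval x)).eval s = eval (fun l => x l + s * (a l : ℂ)) p := by
  induction p using MvPolynomial.induction_on with
  | C c =>
    unfold Ts
    rw [aeval_C, MvPolynomial.eval_C]
    have : (algebraMap ℂ (Polynomial (MvPolynomial (Fin n) ℂ))) c = Polynomial.C (C c) := rfl
    rw [this, Polynomial.map_C, Polynomial.eval_C, MvPolynomial.eval_C]
  | add p q hp hq => rw [map_add, Polynomial.map_add, Polynomial.eval_add, hp, hq, map_add]
  | mul_X p i hp =>
    rw [map_mul, Polynomial.map_mul, Polynomial.eval_mul, hp, map_mul, MvPolynomial.eval_X]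
    congr 1
    unfold Ts
    rw [aeval_X]
    simp
    ring

/-- degrees of the coefficients -/
theorem Ts_deg (a : Fin n → ℝ) (p : MvPolynomial (Fin n) ℂ) (j : ℕ) :
    (Ts a p).coeff j = 0 ∨ ((Ts a p).coeff j).totalDegree + j ≤ p.totalDegree := by
  -- elements of bounded total degree
  let Bd : ℕ → Polynomial (MvPolynomial (Fin n) ℂ) → Prop := fun N q =>
    ∀ j, q.coeff j = 0 ∨ (q.coeff j).totalDegree + j ≤ N
  have hadd : ∀ N q q', Bd N q → Bd N q' → Bd N (q + q') := by
    intro N q q' h h' j
    rw [Polynomial.coeff_add]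
    rcases h j with h1 | h1
    · rw [h1, zero_add]; exact h' j
    · rcases h' j with h2 | h2
      · rw [h2, add_zero]; exact Or.inr h1
      · right
        have := totalDegree_add (q.coeff j) (q'.coeff j)
        have h3 : max (q.coeff j).totalDegree (q'.coeff j).totalDegree + j ≤ N := by
          rcases max_choice (q.coeff j).totalDegree (q'.coeff j).totalDegree with h4 | h4 <;> rw [h4]
          · exact h1
          · exact h2
        omega
  have hsum : ∀ N (s : Finset (Fin n →₀ ℕ)) (f : (Fin n →₀ ℕ) → Polynomial (MvPolynomial (Fin n) ℂ)),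
      (∀ i ∈ s, Bd N (f i)) → Bd N (∑ i ∈ s, f i) := by
    classical
    intro N s f
    induction s using Finset.induction_on with
    | empty => intro _ j; left; simp
    | insert i s hi ih =>
      intro h
      rw [Finset.sum_insert hi]
      exact hadd _ _ _ (h i (Finset.mem_insert_self _ _))
        (ih (fun k hk => h k (Finset.mem_insert_of_mem hk)))
  have hmul : ∀ N M q q', Bd N q → Bd M q' → Bd (N + M) (q * q') := by
    intro N M q q' h h' j
    rw [Polynomial.coeff_mul]
    by_cases h0 : ∑ x ∈ Finset.HasAntidiagonal.antidiagonal j, q.coeff x.1 * q'.coeff x.2 = 0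
    · exact Or.inl h0
    · right
      obtain ⟨x, hx, hne⟩ := Finset.exists_ne_zero_of_sum_ne_zero h0
      have hj : j ≤ N + M := by
        rcases h x.1 with h1 | h1
        · exact absurd (by rw [h1, zero_mul]) hne
        · rcases h' x.2 with h2 | h2
          · exact absurd (by rw [h2, mul_zero]) hne
          · have := Finset.HasAntidiagonal.mem_antidiagonal.mp hx
            omega
      have h3 : (∑ x ∈ Finset.HasAntidiagonal.antidiagonal j,
          q.coeff x.1 * q'.coeff x.2).totalDegree ≤ N + M - j := by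
        refine totalDegree_finsetSum_le fun x hx => ?_
        have hxj := Finset.HasAntidiagonal.mem_antidiagonal.mp hx
        rcases h x.1 with h1 | h1
        · rw [h1, zero_mul, totalDegree_zero]; exact Nat.zero_le _
        · rcases h' x.2 with h2 | h2
          · rw [h2, mul_zero, totalDegree_zero]; exact Nat.zero_le _
          · have := totalDegree_mul (q.coeff x.1) (q'.coeff x.2)
            omega
      omega
  have hone : Bd 0 1 := by
    intro j
    rw [Polynomial.coeff_one]
    split_ifs with h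
    · right
      rw [h, totalDegree_one]
    · left; rfl
  have hpow : ∀ N q k, Bd N q → Bd (k * N) (q ^ k) := by
    intro N q k h
    induction k with
    | zero => rw [pow_zero, Nat.zero_mul]; exact hone
    | succ k ih =>
      rw [pow_succ, Nat.succ_mul]
      exact hmul _ _ _ _ ih h
  have hgen : ∀ l : Fin n, Bd 1 (Polynomial.C (X l) + Polynomial.C (C (a l : ℂ)) * Polynomial.X) := by
    intro l j
    rw [Polynomial.coeff_add, Polynomial.coeff_C_mul, Polynomial.coeff_C, Polynomial.coeff_X]
    rcases j with _ | _ | j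
    · right
      simp
    · right
      simp
    · left
      simp
  have hprod : ∀ (s : Finset (Fin n)) (m : Fin n → ℕ),
      Bd (∑ l ∈ s, m l) (∏ l ∈ s, (Polynomial.C (X l) + Polynomial.C (C (a l : ℂ)) *
        Polynomial.X) ^ m l) := by
    classical
    intro s m
    induction s using Finset.induction_on with
    | empty => simpa using hone
    | insert i s hi ih =>
      rw [Finset.sum_insert hi, Finset.prod_insert hi]
      refine hmul _ _ _ _ ?_ ih
      have := hpow 1 _ (m i) (hgen i)
      rwa [Nat.mul_one] at this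
  have hmono : ∀ N M q, N ≤ M → Bd N q → Bd M q := by
    intro N M q hNM h j
    rcases h j with h1 | h1
    · exact Or.inl h1
    · exact Or.inr (h1.trans hNM)
  have key : Bd p.totalDegree (Ts a p) := by
    unfold Ts
    rw [aeval_def, eval₂_eq']
    apply hsum
    intro m hm
    have h1 : Bd 0 (algebraMap ℂ (Polynomial (MvPolynomial (Fin n) ℂ)) (coeff m p)) := by
      have e : algebraMap ℂ (Polynomial (MvPolynomial (Fin n) ℂ)) (coeff m p) =
          Polynomial.C (C (coeff m p)) := rfl
      rw [e]
      intro j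
      rw [Polynomial.coeff_C]
      split_ifs with h
      · right
        rw [h, totalDegree_C]
      · left; rfl
    have h2 := hmul _ _ _ _ h1 (hprod Finset.univ m)
    refine hmono _ _ _ ?_ h2
    have h3 := le_totalDegree hm
    rw [Finsupp.sum_fintype _ _ (fun _ => rfl)] at h3
    simpa using h3
  exact key j

/-- the conjugate polynomial -/
def bar (p : MvPolynomial (Fin n) ℂ) : MvPolynomial (Fin n) ℂ := map (starRingEnd ℂ) p

theorem bar_mul (p q : MvPolynomial (Fin n) ℂ) : bar (p * q) = bar p * bar q := map_mul _ _ _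

theorem bar_C (c : ℂ) : bar (C c : MvPolynomial (Fin n) ℂ) = C ((starRingEnd ℂ) c) := map_C _ _

theorem bar_bar (p : MvPolynomial (Fin n) ℂ) : bar (bar p) = p := by
  unfold bar
  rw [MvPolynomial.map_map]
  have : (starRingEnd ℂ).comp (starRingEnd ℂ) = RingHom.id ℂ := by
    ext z
    simp
  rw [this, MvPolynomial.map_id]

theorem bar_eval (p : MvPolynomial (Fin n) ℂ) (κ : Fin n → ℝ) :
    eval (cx κ) (bar p) = (starRingEnd ℂ) (eval (cx κ) p) := by
  unfold bar
  rw [MvPolynomial.eval_map, ← MvPolynomial.eval₂_id, MvPolynomial.hom_eval₂, RingHom.comp_id]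
  congr 1
  funext i
  simp [cx]

theorem bar_ne {p : MvPolynomial (Fin n) ℂ} (h : p ≠ 0) : bar p ≠ 0 := by
  intro h0
  apply h
  rw [← bar_bar p, h0]
  unfold bar
  exact map_zero _

theorem bar_deg (p : MvPolynomial (Fin n) ℂ) : (bar p).totalDegree ≤ p.totalDegree := by
  unfold bar
  exact Finset.sup_mono (MvPolynomial.support_map_subset _ _)

/-- polynomials which vanish at the real points -/
theorem real_zero {p : MvPolynomial (Fin n) ℂ} (h : ∀ κ : Fin n → ℝ, eval (cx κ) p = 0) : p = 0 := by
  refine MvPolynomial.funext_set (fun _ => Set.range (fun r : ℝ => (r : ℂ))) ?_ ?_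
  · intro _
    exact Set.infinite_range_of_injective Complex.ofReal_injective
  · intro x hx
    have h1 : ∀ i, ∃ r : ℝ, (r : ℂ) = x i := fun i => hx i (Set.mem_univ i)
    choose κ hκ using h1
    have h2 : x = cx κ := by
      funext i
      exact (hκ i).symm
    rw [h2, h κ, map_zero]

/-- a polynomial all roots of which are real -/
theorem real_roots {p : Polynomial ℂ} (h : ∀ s, p.eval s = 0 → s.im = 0) :
    p.eval 0 * (starRingEnd ℂ) p.leadingCoeff = (starRingEnd ℂ) (p.eval 0) * p.leadingCoeff := by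
  by_cases hp : p = 0
  · rw [hp]; simp
  have h1 := (IsAlgClosed.splits p).eval_eq_prod_roots 0
  rw [h1, map_mul]
  have h2 : (starRingEnd ℂ) (p.roots.map (fun a => 0 - a)).prod = (p.roots.map (fun a => 0 - a)).prod := by
    rw [map_multiset_prod, Multiset.map_map]
    congr 1
    apply Multiset.map_congr rfl
    intro r hr
    have h3 : r.im = 0 := h r (by
      have := (Polynomial.mem_roots hp).mp hr
      exact this)
    simp only [Function.comp_apply, zero_sub, map_neg]
    rw [Complex.conj_eq_iff_im.mpr h3]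
  rw [h2]
  ring

theorem eval_smul_hom {F : MvPolynomial (Fin n) ℂ} {D : ℕ} (hF : F.IsHomogeneous D) (c : ℂ)
    (x : Fin n → ℂ) : eval (fun i => c * x i) F = c ^ D * eval x F := by
  rw [MvPolynomial.eval_eq', MvPolynomial.eval_eq', Finset.mul_sum]
  apply Finset.sum_congr rfl
  intro m hm
  have h1 : ∑ i, m i = D := by
    have h2 : Finsupp.weight 1 m = D := hF (mem_support_iff.mp hm)
    have h3 : m.degree = D := by
      rw [← h2, Finsupp.degree_eq_weight_one]
      rfl
    rw [Finsupp.degree_eq_sum] at h3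
    exact h3
  rw [← h1, ← Finset.prod_pow_eq_pow_sum]
  simp only [mul_pow, Finset.prod_mul_distrib]
  ring

/-- the main step -/
theorem nonreal {F G : MvPolynomial (Fin n) ℂ} (a : Fin n → ℝ) (hF : F ≠ 0) (hG : Irreducible G)
    (hreal : ¬ ∃ c : ℂ, c ≠ 0 ∧ ∀ m, (coeff m (C c * G)).im = 0)
    (hinv : ∃ (x : Fin n → ℂ) (t : ℂ), eval (fun l => x l + t * (a l : ℂ)) G ≠ eval x G) :
    ∃ (κ : Fin n → ℝ) (s : ℂ), eval (cx κ) F ≠ 0 ∧
      eval (fun l => (κ l : ℂ) + s * (a l : ℂ)) G = 0 ∧ s.im ≠ 0 := by
  by_contra hcon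
  push Not at hcon
  obtain ⟨d, hd⟩ : ∃ d, d = (Ts a G).natDegree := ⟨_, rfl⟩
  obtain ⟨A, hA⟩ : ∃ A, A = (Ts a G).leadingCoeff := ⟨_, rfl⟩
  have hd1 : 1 ≤ d := by
    by_contra h
    have h0 : (Ts a G).natDegree = 0 := by omega
    obtain ⟨x, t, hxt⟩ := hinv
    apply hxt
    obtain ⟨c, hc⟩ := Polynomial.natDegree_eq_zero.mp h0
    have h1 := Ts_eval a G x t
    have h2 := Ts_eval a G x 0
    rw [← hc, Polynomial.map_C, Polynomial.eval_C] at h1 h2
    have h3 : (fun l => x l + 0 * (a l : ℂ)) = x := by
      funext l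
      ring
    rw [h3] at h2
    rw [← h1, h2]
  have hTs0 : Ts a G ≠ 0 := by
    intro h
    rw [h, Polynomial.natDegree_zero] at hd
    omega
  have hA0 : A ≠ 0 := by
    rw [hA]
    exact Polynomial.leadingCoeff_ne_zero.mpr hTs0
  have hAdeg : A.totalDegree + d ≤ G.totalDegree := by
    rcases Ts_deg a G d with h | h
    · exfalso
      apply hA0
      rw [hA, Polynomial.leadingCoeff, ← hd, h]
    · rw [hA, Polynomial.leadingCoeff, ← hd]
      exact h
  -- the identity
  have hid : G * bar A = bar G * A := by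
    have h1 : (F * A) * (G * bar A - bar G * A) = 0 := by
      apply real_zero
      intro κ
      rw [map_mul]
      by_cases h2 : eval (cx κ) (F * A) = 0
      · rw [h2, zero_mul]
      · rw [map_mul] at h2
        have hFκ : eval (cx κ) F ≠ 0 := left_ne_zero_of_mul h2
        have hAκ : eval (cx κ) A ≠ 0 := right_ne_zero_of_mul h2
        have h3 : ((Ts a G).map (eval (cx κ))).leadingCoeff = eval (cx κ) A := by
          rw [hA]
          apply Polynomial.leadingCoeff_map_of_leadingCoeff_ne_zero
          rw [← hA]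
          exact hAκ
        have h4 := real_roots (p := (Ts a G).map (eval (cx κ))) (by
          intro s hs
          rw [Ts_eval] at hs
          exact hcon κ s hFκ hs)
        rw [h3, Ts_eval] at h4
        have h5 : (fun l => cx κ l + 0 * (a l : ℂ)) = cx κ := by
          funext l
          ring
        rw [h5] at h4
        rw [map_mul, map_sub, map_mul (eval (cx κ)) G, map_mul (eval (cx κ)) (bar G), bar_eval,
          bar_eval, h4, sub_self, mul_zero]
    rcases mul_eq_zero.mp h1 with h2 | h2
    · exact absurd h2 (mul_ne_zero hF hA0)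
    · exact sub_eq_zero.mp h2
  have hGp : Prime G := hG.prime
  have hG0 : G ≠ 0 := hG.ne_zero
  have hdvd : G ∣ bar G := by
    have h1 : G ∣ bar G * A := ⟨bar A, hid.symm⟩
    rcases hGp.dvd_or_dvd h1 with h2 | h2
    · exact h2
    · exfalso
      obtain ⟨H, hH⟩ := h2
      have hH0 : H ≠ 0 := by
        rintro rfl
        exact hA0 (by rw [hH, mul_zero])
      have h3 : A.totalDegree = G.totalDegree + H.totalDegree := by
        rw [hH, totalDegree_mul_of_isDomain hG0 hH0]
      omega
  obtain ⟨H, hH⟩ := hdvd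
  have hbG0 : bar G ≠ 0 := bar_ne hG0
  have hH0 : H ≠ 0 := by
    rintro rfl
    exact hbG0 (by rw [hH, mul_zero])
  have hHd : H.totalDegree = 0 := by
    have h1 : (bar G).totalDegree = G.totalDegree + H.totalDegree := by
      rw [hH, totalDegree_mul_of_isDomain hG0 hH0]
    have h2 := bar_deg G
    omega
  obtain ⟨c, hc⟩ : ∃ c : ℂ, H = C c := ⟨_, totalDegree_eq_zero_iff_eq_C.mp hHd⟩
  rw [hc] at hH
  have hcc : (starRingEnd ℂ) c * c = 1 := by
    have h1 : bar (bar G) = bar (G * C c) := by rw [hH]
    rw [bar_bar, bar_mul, bar_C, hH, mul_assoc, ← C_mul] at h1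
    have h2 : G * (1 - C (c * (starRingEnd ℂ) c)) = 0 := by
      linear_combination h1
    rcases mul_eq_zero.mp h2 with h3 | h3
    · exact absurd h3 hG0
    · have h4 : (C (1 - c * (starRingEnd ℂ) c) : MvPolynomial (Fin n) ℂ) = 0 := by
        rw [C_sub, C_1]
        exact h3
      rw [C_eq_zero] at h4
      linear_combination -h4
  obtain ⟨b, hb⟩ : ∃ b : ℂ, b ^ 2 = c := ⟨_, Complex.cpow_nat_inv_pow c (by norm_num)⟩
  have hb0 : b ≠ 0 := by
    rintro rfl
    rw [← hb] at hcc
    simp at hcc
  have hbb : (starRingEnd ℂ) b * b = 1 := by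
    have h1 : ((starRingEnd ℂ) b * b) ^ 2 = 1 := by
      rw [mul_pow, ← map_pow, hb, hcc]
    have h2 : (starRingEnd ℂ) b * b = ((Complex.normSq b : ℝ) : ℂ) := by
      rw [mul_comm, Complex.mul_conj]
    rw [h2] at h1 ⊢
    have h3 : (Complex.normSq b) ^ 2 = 1 := by exact_mod_cast h1
    have h4 : Complex.normSq b = 1 := by
      have h5 := Complex.normSq_nonneg b
      nlinarith
    rw [h4]
    norm_num
  apply hreal
  refine ⟨b, hb0, fun m => ?_⟩
  have h1 : bar (C b * G) = C b * G := by
    rw [bar_mul, bar_C, hH, ← hb]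
    have e1 : (C ((starRingEnd ℂ) b) : MvPolynomial (Fin n) ℂ) * (G * C (b ^ 2)) =
        C (((starRingEnd ℂ) b * b) * b) * G := by
      rw [C_mul, C_mul, C_pow]
      ring
    rw [e1, hbb, one_mul]
  have h2 : (starRingEnd ℂ) (coeff m (C b * G)) = coeff m (C b * G) := by
    conv_rhs => rw [← h1]
    unfold bar
    rw [coeff_map]
  exact Complex.conj_eq_iff_im.mp h2

theorem nr : S_nr := by
  intro n P G a hP hG hGdvd hreal hinv
  obtain ⟨h1, h2⟩ := Pool.Agent.W565.EC.t_top n P hP
  obtain ⟨F, hF⟩ : ∃ F, F = homogeneousComponent P.totalDegree P := ⟨_, rfl⟩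
  rw [← hF] at h1 h2 hGdvd
  have hhom : F.IsHomogeneous P.totalDegree := by
    rw [hF]
    exact homogeneousComponent_isHomogeneous _ _
  refine ⟨F, h1, ?_⟩
  obtain ⟨κ, s, hκ, hs, him⟩ := nonreal a h2 hG hreal hinv
  have hFs : eval (fun l => (κ l : ℂ) + s * (a l : ℂ)) F = 0 := by
    obtain ⟨H, hH⟩ := hGdvd
    rw [hH, map_mul, hs, zero_mul]
  intro hstar
  obtain ⟨σ, hσ, hσs⟩ : ∃ σ : ℝ, σ ≠ 0 ∧ 0 < σ * s.im := by
    rcases lt_or_gt_of_ne him with h | h
    · exact ⟨-1, by norm_num, by linarith⟩
    · exact ⟨1, by norm_num, by linarith⟩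
  rcases hstar a rfl (fun l => σ * κ l) with h3 | h3
  · refine h3 (σ * Complex.I * s) ?_ ?_
    · have : ((σ : ℂ) * Complex.I * s).re = -(σ * s.im) := by
        simp
      rw [this]
      linarith
    · have e1 : (fun i => (a i : ℂ) * (σ * Complex.I * s) + Complex.I * (((σ * κ i : ℝ)) : ℂ)) =
          fun i => (Complex.I * σ) * ((κ i : ℂ) + s * (a i : ℂ)) := by
        funext i
        push_cast
        ring
      rw [e1, eval_smul_hom hhom, hFs, mul_zero]
  · have h4 := h3 0
    have e1 : (fun i => (a i : ℂ) * 0 + Complex.I * (((σ * κ i : ℝ)) : ℂ)) =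
        fun i => (Complex.I * σ) * (cx κ i) := by
      funext i
      unfold cx
      push_cast
      ring
    rw [e1, eval_smul_hom hhom] at h4
    rcases mul_eq_zero.mp h4 with h5 | h5
    · have h6 : Complex.I * (σ : ℂ) ≠ 0 := mul_ne_zero Complex.I_ne_zero (by exact_mod_cast hσ)
      exact (pow_ne_zero _ h6) h5
    · exact hκ h5

end

end Pool.Agent.Q151.EG
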